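import Mathlib

namespace Pool.Agent.Results.MP_a5c736_co.AllK

/-- `H` is an `m`-fold cover of `G`, with `L (u) = {u} × Fin m`. -/
def IsCover {V : Type} (G : SimpleGraph V) (m : ℕ) (H : SimpleGraph (V × Fin m)) : Prop :=
  (∀ u i j, i ≠ j → H.Adj (u, i) (u, j)) ∧
  (∀ u v, G.Adj u v → ∀ i j j', H.Adj (u, i) (v, j) → H.Adj (u, i) (v, j') → j = j') ∧
  (∀ u v, u ≠ v → ¬ G.Adj u v → ∀ i j, ¬ H.Adj (u, i) (v, j))

/-- The DP-chromatic number. -/
noncomputable def chiDP {V : Type} [Fintype V] (G : SimpleGraph V) : ℕ :=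
  sInf {m | ∀ H, IsCover G m H → ∃ s, H.IsNIndepSet (Fintype.card V) s}

/-- `α_t^{DP} (G)`: the least independence number of a `t`-fold cover. -/
noncomputable def alphaDP {V : Type} [Fintype V] (G : SimpleGraph V) (t : ℕ) : ℕ :=
  sInf {a | ∃ H, IsCover G t H ∧ H.indepNum = a}

/-- `G` is partially DP-nice. -/
def PartiallyDPNice {V : Type} [Fintype V] (G : SimpleGraph V) : Prop :=
  ∀ t, 1 ≤ t → t ≤ chiDP G → (t * Fintype.card V : ℚ) / chiDP G ≤ alphaDP G t

theorem greedy {n d : ℕ} (G : SimpleGraph (Fin n)) [DecidableRel G.Adj]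
    (hd : ∀ v, (Finset.univ.filter fun u => u < v ∧ G.Adj u v).card ≤ d)
    (H : SimpleGraph (Fin n × Fin (d + 1))) (hH : IsCover G (d + 1) H) :
    ∃ s, H.IsNIndepSet (Fintype.card (Fin n)) s := by
  classical
  have key : ∀ k ≤ n, ∃ c : Fin n → Fin (d + 1), ∀ u v : Fin n, u.val < k → v.val < k → u ≠ v →
      ¬ H.Adj (u, c u) (v, c v) := by
    intro k
    induction k with
    | zero => intro _; exact ⟨fun _ => 0, fun u v h => absurd h (Nat.not_lt_zero _)⟩
    | succ k ih =>
      intro hk
      obtain ⟨c, hc⟩ := ih (by omega)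
      let w : Fin n := ⟨k, hk⟩
      have : ∃ j, ∀ u, u < w → ¬ H.Adj (u, c u) (w, j) := by
        by_contra hcon
        push Not at hcon
        choose f hf1 hf2 using hcon
        have hadj : ∀ j, G.Adj (f j) w := fun j => by
          by_contra h
          exact hH.2.2 _ _ (hf1 j).ne h _ _ (hf2 j)
        have := Finset.card_le_card_of_injOn (s := Finset.univ)
          (t := Finset.univ.filter fun u => u < w ∧ G.Adj u w) f
          (fun j _ => by simp [hf1 j, hadj j])
          (fun j _ j' _ e => hH.2.1 _ _ (hadj j) _ _ _ (hf2 j) (e ▸ hf2 j'))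
        have h2 := hd w
        simp at this
        omega
      obtain ⟨j, hj⟩ := this
      refine ⟨Function.update c w j, fun u v hu hv huv => ?_⟩
      by_cases h1 : u = w
      · subst h1
        have : v < w := by
          have : v.val ≠ k := fun e => huv (Fin.ext e.symm)
          show v.val < k
          omega
        rw [Function.update_self, Function.update_of_ne huv.symm]
        exact fun h => hj v this h.symm
      · have hu' : u.val < k := by
          have : u.val ≠ k := fun e => h1 (Fin.ext e)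
          omega
        rw [Function.update_of_ne h1]
        by_cases h2 : v = w
        · subst h2
          rw [Function.update_self]
          exact hj u hu'
        · have hv' : v.val < k := by
            have : v.val ≠ k := fun e => h2 (Fin.ext e)
            omega
          rw [Function.update_of_ne h2]
          exact hc u v hu' hv' huv
  obtain ⟨c, hc⟩ := key n le_rfl
  refine ⟨Finset.univ.image fun u => (u, c u), ?_, ?_⟩
  · intro x hx y hy hxy
    simp only [Finset.coe_image, Finset.coe_univ, Set.image_univ, Set.mem_range] at hx hy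
    obtain ⟨u, rfl⟩ := hx
    obtain ⟨v, rfl⟩ := hy
    exact hc u v u.2 v.2 fun e => hxy (by rw [e])
  · rw [Finset.card_image_of_injective _ fun u v e => congrArg Prod.fst e]
    simp

/-- The cover that encodes ordinary colouring. -/
def canon {V : Type} (G : SimpleGraph V) (m : ℕ) : SimpleGraph (V × Fin m) where
  Adj x y := (x.1 = y.1 ∧ x.2 ≠ y.2) ∨ (G.Adj x.1 y.1 ∧ x.2 = y.2)
  symm := ⟨fun _ _ h => h.imp (fun h => ⟨h.1.symm, h.2.symm⟩) fun h => ⟨h.1.symm, h.2.symm⟩⟩
  loopless := ⟨fun _ h => h.elim (fun h => h.2 rfl) fun h => h.1.ne rfl⟩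

theorem canon_cover {V : Type} (G : SimpleGraph V) (m : ℕ) : IsCover G m (canon G m) := by
  refine ⟨fun u i j h => Or.inl ⟨rfl, h⟩, fun u v huv i j j' h h' => ?_, fun u v h1 h2 i j h => ?_⟩
  · rcases h with h | h
    · exact absurd h.1 huv.ne
    rcases h' with h' | h'
    · exact absurd h'.1 huv.ne
    exact h.2.symm.trans h'.2
  · exact h.elim (fun h => h1 h.1) fun h => h2 h.1

theorem colouring {V : Type} [Fintype V] (G : SimpleGraph V) (m : ℕ) (s : Finset (V × Fin m))
    (hs : (canon G m).IsNIndepSet (Fintype.card V) s) :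
    ∃ c : V → Fin m, ∀ u v, G.Adj u v → c u ≠ c v := by
  classical
  have hinj : Set.InjOn Prod.fst (s : Set (V × Fin m)) := by
    intro x hx y hy e
    by_contra hne
    exact hs.1 hx hy hne (Or.inl ⟨e, fun e' => hne (Prod.ext e e')⟩)
  have : s.image Prod.fst = Finset.univ :=
    Finset.eq_univ_of_card _ (by rw [Finset.card_image_of_injOn hinj, hs.2])
  have h2 : ∀ u, ∃ i, (u, i) ∈ s := by
    intro u
    obtain ⟨x, hx, rfl⟩ := Finset.mem_image.1 (this ▸ Finset.mem_univ u)
    exact ⟨x.2, hx⟩
  choose c hc using h2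
  exact ⟨c, fun u v huv e => hs.1 (hc u) (hc v) (fun e' => huv.ne (congrArg Prod.fst e'))
    (Or.inr ⟨huv, e⟩)⟩

/-- Vertices `0..d-1` form a clique `Q`, `d` and `d+1` are joined to everything but each other,
and `d+2..2d` form a clique `E` with no edge to `Q`. -/
def GG (d : ℕ) : SimpleGraph (Fin (2 * d + 1)) where
  Adj u v := u.val ≠ v.val ∧ ¬ (u.val = d ∧ v.val = d + 1) ∧ ¬ (u.val = d + 1 ∧ v.val = d) ∧
    ¬ (u.val < d ∧ d + 2 ≤ v.val) ∧ ¬ (v.val < d ∧ d + 2 ≤ u.val)
  symm := ⟨fun _ _ h => by omega⟩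
  loopless := ⟨fun _ h => h.1 rfl⟩

theorem GG_adj {d : ℕ} (u v : Fin (2 * d + 1)) : (GG d).Adj u v ↔
    u.val ≠ v.val ∧ ¬ (u.val = d ∧ v.val = d + 1) ∧ ¬ (u.val = d + 1 ∧ v.val = d) ∧
    ¬ (u.val < d ∧ d + 2 ≤ v.val) ∧ ¬ (v.val < d ∧ d + 2 ≤ u.val) := Iff.rfl

def tw (e : ℕ) (u v : Fin (2 * (e + 2) + 1)) (i : Fin (e + 2)) : Fin (e + 2) :=
  if u.val = e + 2 ∧ e + 4 ≤ v.val then i + 1 else i

theorem tw_inj (e : ℕ) (u v : Fin (2 * (e + 2) + 1)) (i j : Fin (e + 2))
    (h : tw e u v i = tw e u v j) : i = j := by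
  unfold tw at h
  split_ifs at h
  · exact add_right_cancel h
  · exact h

def HH (e : ℕ) : SimpleGraph (Fin (2 * (e + 2) + 1) × Fin (e + 2)) where
  Adj x y := (x.1 = y.1 ∧ x.2 ≠ y.2) ∨
    ((GG (e + 2)).Adj x.1 y.1 ∧ tw e x.1 y.1 x.2 = tw e y.1 x.1 y.2)
  symm := ⟨fun _ _ h => h.imp (fun h => ⟨h.1.symm, h.2.symm⟩) fun h => ⟨h.1.symm, h.2.symm⟩⟩
  loopless := ⟨fun _ h => h.elim (fun h => h.2 rfl) fun h => h.1.ne rfl⟩

theorem HH_cover (e : ℕ) : IsCover (GG (e + 2)) (e + 2) (HH e) := by
  refine ⟨fun u i j h => Or.inl ⟨rfl, h⟩, fun u v huv i j j' h h' => ?_, fun u v h1 h2 i j h => ?_⟩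
  · rcases h with h | h
    · exact absurd h.1 huv.ne
    rcases h' with h' | h'
    · exact absurd h'.1 huv.ne
    exact tw_inj e v u _ _ (h.2.symm.trans h'.2)
  · exact h.elim (fun h => h1 h.1) fun h => h2 h.1

theorem pig {d : ℕ} (g : Fin (d + 1) → Fin d) : ∃ i j, i.val < j.val ∧ g i = g j := by
  obtain ⟨i, j, h1, h2⟩ := Fintype.exists_ne_map_eq_of_card_lt g (by simp)
  rcases lt_or_gt_of_ne h1 with h | h
  · exact ⟨i, j, h, h2⟩
  · exact ⟨j, i, h, h2.symm⟩

theorem no_col (e : ℕ) (m : Fin (2 * (e + 2) + 1)) (c : Fin (2 * (e + 2) + 1) → Fin (e + 2))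
    (hc : ∀ u v, u.val ≠ m.val → v.val ≠ m.val → (GG (e + 2)).Adj u v →
      tw e u v (c u) ≠ tw e v u (c v)) : False := by
  have hc1 : ∀ u v, u.val ≠ m.val → v.val ≠ m.val → (GG (e + 2)).Adj u v →
      ¬ (u.val = e + 2 ∧ e + 4 ≤ v.val) → ¬ (v.val = e + 2 ∧ e + 4 ≤ u.val) → c u ≠ c v := by
    intro u v h1 h2 h3 h4 h5
    have := hc u v h1 h2 h3
    unfold tw at this
    rwa [if_neg h4, if_neg h5] at this
  by_cases hm : m.val < e + 2
  · have hab : c ⟨e + 2, by omega⟩ = c ⟨e + 3, by omega⟩ := by
      obtain ⟨i, j, hij, h⟩ := pig (d := e + 2) fun i =>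
        c (if i.val = m.val then ⟨e + 3, by omega⟩ else ⟨i.val, by omega⟩)
      have hi := i.2
      have hj := j.2
      by_cases h1 : i.val = m.val
      · rw [if_pos h1, if_neg (by omega)] at h
        by_cases h2 : j.val = e + 2
        · rw [h]
          congr 1
          exact Fin.ext h2.symm
        · exact absurd h (hc1 _ _ (by simp only []; omega) (by simp only []; omega)
            (by rw [GG_adj]; simp only []; omega) (by simp only []; omega) (by simp only []; omega))
      · rw [if_neg h1] at h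
        by_cases h2 : j.val = m.val
        · rw [if_pos h2] at h
          exact absurd h (hc1 _ _ (by simp only []; omega) (by simp only []; omega)
            (by rw [GG_adj]; simp only []; omega) (by simp only []; omega) (by simp only []; omega))
        · rw [if_neg h2] at h
          exact absurd h (hc1 _ _ (by simp only []; omega) (by simp only []; omega)
            (by rw [GG_adj]; simp only []; omega) (by simp only []; omega) (by simp only []; omega))
    obtain ⟨i, j, hij, h⟩ := pig (d := e + 2) fun i =>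
      if i.val = 0 then c ⟨e + 2, by omega⟩ + 1 else c ⟨e + 2 + i.val, by omega⟩
    have hi := i.2
    have hj := j.2
    rw [if_neg (show ¬ j.val = 0 by omega)] at h
    by_cases h1 : i.val = 0
    · rw [if_pos h1] at h
      by_cases h2 : j.val = 1
      · have h3 : c ⟨e + 2 + j.val, by omega⟩ = c ⟨e + 3, by omega⟩ := by
          congr 1
          exact Fin.ext (by simp only []; omega)
        rw [h3, ← hab] at h
        simp at h
      · have := hc ⟨e + 2, by omega⟩ ⟨e + 2 + j.val, by omega⟩ (by simp only []; omega) (by simp only []; omega)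
          (by rw [GG_adj]; simp only []; omega)
        unfold tw at this
        rw [if_pos ⟨rfl, by simp only []; omega⟩, if_neg (by simp only []; omega)] at this
        exact this h
    · rw [if_neg h1] at h
      exact absurd h (hc1 _ _ (by simp only []; omega) (by simp only []; omega)
        (by rw [GG_adj]; simp only []; omega) (by simp only []; omega) (by simp only []; omega))
  · by_cases hm2 : m.val = e + 2
    · obtain ⟨i, j, hij, h⟩ := pig (d := e + 2) fun i =>
        c (if i.val = e + 2 then ⟨e + 3, by omega⟩ else ⟨i.val, by omega⟩)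
      have hi := i.2
      have hj := j.2
      rw [if_neg (show ¬ i.val = e + 2 by omega)] at h
      by_cases h2 : j.val = e + 2
      · rw [if_pos h2] at h
        exact absurd h (hc1 _ _ (by simp only []; omega) (by simp only []; omega)
          (by rw [GG_adj]; simp only []; omega) (by simp only []; omega) (by simp only []; omega))
      · rw [if_neg h2] at h
        exact absurd h (hc1 _ _ (by simp only []; omega) (by simp only []; omega)
          (by rw [GG_adj]; simp only []; omega) (by simp only []; omega) (by simp only []; omega))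
    · obtain ⟨i, j, hij, h⟩ := pig (d := e + 2) fun i => c ⟨i.val, by omega⟩
      have hi := i.2
      have hj := j.2
      exact absurd h (hc1 _ _ (by simp only []; omega) (by simp only []; omega)
        (by rw [GG_adj]; simp only []; omega) (by simp only []; omega) (by simp only []; omega))

theorem alpha_le (e : ℕ) : alphaDP (GG (e + 2)) (e + 2) ≤ 2 * e + 3 := by
  classical
  have hm : (HH e).indepNum ∈ {a | ∃ H, IsCover (GG (e + 2)) (e + 2) H ∧ H.indepNum = a} :=
    ⟨HH e, HH_cover e, rfl⟩
  refine (Nat.sInf_le hm).trans ?_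
  obtain ⟨s, hs⟩ := (HH e).exists_isNIndepSet_indepNum
  rw [← hs.2]
  by_contra hcon
  have hinj : Set.InjOn Prod.fst (s : Set (Fin (2 * (e + 2) + 1) × Fin (e + 2))) := by
    intro x hx y hy e
    by_contra hne
    exact hs.1 hx hy hne (Or.inl ⟨e, fun e' => hne (Prod.ext e e')⟩)
  have h1 : ((s.image Prod.fst)ᶜ).card ≤ 1 := by
    rw [Finset.card_compl, Finset.card_image_of_injOn hinj, Fintype.card_fin]
    omega
  obtain ⟨m, hm⟩ := Finset.card_le_one_iff_subset_singleton.1 h1
  have h2 : ∀ u, ∃ i, u ≠ m → (u, i) ∈ s := by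
    intro u
    by_cases h : u = m
    · exact ⟨0, fun h' => absurd h h'⟩
    · have : u ∈ s.image Prod.fst := by
        by_contra h'
        exact h (Finset.mem_singleton.1 (hm (Finset.mem_compl.2 h')))
      obtain ⟨x, hx, rfl⟩ := Finset.mem_image.1 this
      exact ⟨x.2, fun _ => hx⟩
  choose c hc using h2
  refine no_col e m c fun u v hu hv huv h => ?_
  exact hs.1 (hc u fun e => hu (by rw [e])) (hc v fun e => hv (by rw [e]))
    (fun e' => huv.ne (congrArg Prod.fst e')) (Or.inr ⟨huv, h⟩)

theorem chi_eq (d : ℕ) : chiDP (GG d) = d + 1 := by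
  classical
  have h5 : d + 1 ∈ {m | ∀ H, IsCover (GG d) m H →
      ∃ s, H.IsNIndepSet (Fintype.card (Fin (2 * d + 1))) s} := by
    intro H hH
    refine greedy (d := d) (GG d) (fun v => ?_) H hH
    have := Finset.card_le_card_of_injOn
      (s := Finset.univ.filter fun u => u < v ∧ (GG d).Adj u v) (t := Finset.range d)
      (fun u => if v.val ≤ d + 1 then u.val else u.val - d) (fun u hu => by
        simp only [Finset.coe_filter, Finset.mem_univ, true_and, Set.mem_setOf_eq, GG_adj,
          Fin.lt_def] at hu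
        have := v.2
        simp only [Finset.coe_range, Set.mem_Iio]
        split_ifs <;> omega) (fun u hu w hw h => by
        simp only [Finset.coe_filter, Finset.mem_univ, true_and, Set.mem_setOf_eq, GG_adj,
          Fin.lt_def] at hu hw
        apply Fin.ext
        simp only at h
        split_ifs at h <;> omega)
    simpa using this
  refine le_antisymm (Nat.sInf_le h5) ?_
  obtain ⟨s, hs⟩ := Nat.sInf_mem ⟨d + 1, h5⟩ _ (canon_cover (GG d) _)
  obtain ⟨c, hc⟩ := colouring (GG d) _ s hs
  have := Fintype.card_le_of_injective (fun i : Fin (d + 1) => c ⟨i.val, by omega⟩)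
    fun i j e => by
      by_contra hne
      have h1 : i.val ≠ j.val := fun h => hne (Fin.ext h)
      have hi := i.2
      have hj := j.2
      exact hc _ _ (by rw [GG_adj]; simp only []; omega) e
  rw [Fintype.card_fin (d + 1), Fintype.card_fin (sInf _)] at this
  exact this

/-- For every `k ≥ 4` there is a graph with `χ_DP = k` that is not partially DP-nice. -/
theorem result : ∀ k : ℕ, 4 ≤ k → ∃ (n : ℕ) (G : SimpleGraph (Fin n)),
    0 < n ∧ chiDP G = k ∧ ¬ PartiallyDPNice G := by
  intro k hk
  obtain ⟨e, rfl⟩ : ∃ e, k = e + 2 + 1 := ⟨k - 3, by omega⟩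
  refine ⟨_, GG (e + 2), by omega, chi_eq _, fun h => ?_⟩
  have h1 := h (e + 2) (by omega) (by rw [chi_eq]; omega)
  rw [chi_eq, Fintype.card_fin, div_le_iff₀ (by positivity)] at h1
  have h2 : (alphaDP (GG (e + 2)) (e + 2) : ℚ) ≤ 2 * e + 3 := by exact_mod_cast alpha_le e
  push_cast at h1
  have h3 : (0 : ℚ) ≤ e := by positivity
  nlinarith

end Pool.Agent.Results.MP_a5c736_co.AllK
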